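import Pool.Agent.N154.TB.Geo2
import Pool.Agent.N154.TB.Bro

/-! Brody's theorem: Brody hyperbolic projective sets are Kobayashi hyperbolic. -/

set_option autoImplicit false

open Filter Topology Metric Set LinearAlgebra.Projectivization

namespace Pool.Agent.J4H41.VI

open FF Pool.Agent.Y190.OP Pool.Agent.W602.GT Pool.Agent.N154.TB
open Pool.Agent.N154.GG (HolMap toProj Phi_rep_toProj proj_ext holMap_of kobayashi projDist
  IsChainLength poincareDist norm_phi_le)

variable {n : ℕ} {ι : Type} {F : ι → MvPolynomial (Fin (n + 1)) ℂ}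

/-- A projective set in which all holomorphic maps from the plane are constant is Kobayashi
hyperbolic: the Kobayashi pseudodistance is bounded below by a multiple of a distance of projective
space. -/
theorem kob_of_brody (hF : ∀ i, IsForm (F i)) (hB : BrodyHyp (Cone F)) :
    ∃ c : ℝ, 0 < c ∧ ∀ p q : ℙ ℂ (Fin (n + 1) → ℂ), p.rep ∈ Cone F → q.rep ∈ Cone F →
      ENNReal.ofReal (c * projDist p q) ≤ kobayashi (Cone F) p q := by
  have hX : Conic (Cone F) := cone_conic hF
  obtain ⟨C1, hC1, hbro⟩ := brody (T := TS (Cone F)) (isCompact_TF hF) (TS_PM hX) (by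
    intro P hP hPT hB'
    have h1 := hB (fun z => toProj (P z)) ⟨holMap_of hP, fun z => rep_toProj hX (hPT z)⟩
    intro z
    have h2 := congrArg (fun p : ℙ ℂ (Fin (n + 1) → ℂ) => Phi p.rep) (h1 z 0)
    change Phi (toProj (P z)).rep = Phi (toProj (P 0)).rep at h2
    rwa [Phi_rep_toProj (TS_PM hX (hPT z)), Phi_rep_toProj (TS_PM hX (hPT 0))] at h2)
  obtain ⟨C2, hC2, hdisc⟩ := disc_trunc_gen (T := TS (Cone F)) (Ξ := ∅) (ε := 1) one_pos hC1 (by
    intro P hP hPT D hD0 hD1 _
    rw [Real.rpow_one]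
    exact (mul_le_of_le_one_right (norm_nonneg _) hD1).trans (hbro P hP hPT))
  refine ⟨(4 * C2)⁻¹, by positivity, fun p q hp hq => ?_⟩
  unfold kobayashi
  refine le_iInf₂ fun c hc => ENNReal.ofReal_le_ofReal ?_
  have h1 := chain_trunc (M0 := Phi p.rep) (ρ := 1 / 2) (A := C2) hC2.le (by
    intro P hP hPT s hs t ht
    have := hdisc 1 one_pos le_rfl (Phi p.rep) (fun M hM => absurd hM (notMem_empty _))
      P hP hPT s hs t ht
    rwa [Real.rpow_one, div_one] at this) hc
  have h2 : dist (min ‖Phi q.rep - Phi p.rep‖ (1 / 2)) (min ‖Phi p.rep - Phi p.rep‖ (1 / 2)) =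
      min ‖Phi q.rep - Phi p.rep‖ (1 / 2) := by
    rw [sub_self, norm_zero, min_eq_left (show (0 : ℝ) ≤ 1 / 2 by norm_num), Real.dist_eq,
      sub_zero, abs_of_nonneg (by positivity)]
  rw [h2] at h1
  have h3 : ‖Phi q.rep - Phi p.rep‖ ≤ 2 := by
    have := (norm_sub_le (Phi q.rep) (Phi p.rep)).trans (add_le_add
      (norm_phi_le (TS_PM hX (mem_TS hq)))
      (norm_phi_le (TS_PM hX (mem_TS hp))))
    linarith
  have h4 : projDist p q / 4 ≤ min ‖Phi q.rep - Phi p.rep‖ (1 / 2) := by
    have e1 : projDist p q = ‖Phi q.rep - Phi p.rep‖ := norm_sub_rev _ _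
    rw [e1]
    have e2 := norm_nonneg (Phi q.rep - Phi p.rep)
    apply le_min <;> linarith
  calc (4 * C2)⁻¹ * projDist p q = C2⁻¹ * (projDist p q / 4) := by
        rw [mul_inv]
        ring
    _ ≤ C2⁻¹ * (C2 * c) := mul_le_mul_of_nonneg_left (h4.trans h1) (by positivity)
    _ = c := by
        rw [← mul_assoc, inv_mul_cancel₀ hC2.ne', one_mul]

end Pool.Agent.J4H41.VI
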