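import Pool.Agent.Q96.LS.Cur
import Pool.Agent.TH143.GE.Wei
import Pool.Agent.TH143.GE.Form
import Pool.Agent.Q103.AR.Main
import Pool.Agent.N155.Crv

/-!
If a projective variety over a number field has only finitely many points over each number field,
its curves are of general type.
-/

set_option autoImplicit false
set_option linter.overlappingInstances false
set_option linter.unusedSectionVars false

namespace Pool.Agent.J4H41.VI

open FF IntermediateField Pool.Agent.W602.GT
open Pool.Agent.W603.LV (canDeg)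
open Pool.Agent.Q103.AR (Points infinite_of_elliptic)

theorem adjoin_self_top {Ω : Type} [Field Ω] [Algebra ℂ Ω] {x y : Ω} (E : IntermediateField ℂ Ω)
    (hE : E = adjoin ℂ {x, y}) (hx : x ∈ E) (hy : y ∈ E) :
    adjoin ℂ ({⟨x, hx⟩, ⟨y, hy⟩} : Set E) = ⊤ := by
  have h1 : (adjoin ℂ ({⟨x, hx⟩, ⟨y, hy⟩} : Set E)).map E.val =
      (⊤ : IntermediateField ℂ E).map E.val := by
    rw [adjoin_map]
    have h2 : (E.val '' {⟨x, hx⟩, ⟨y, hy⟩} : Set Ω) = {x, y} := by
      rw [Set.image_pair]
      rfl
    rw [h2, ← hE]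
    apply le_antisymm
    · intro z hz
      exact ⟨⟨z, hz⟩, trivial, rfl⟩
    · rintro z ⟨w, -, rfl⟩
      exact w.2
  exact map_injective E.val h1

theorem disc_ne {a b : ℂ} (h : ∀ e : ℂ, e ^ 3 + a * e + b = 0 → 3 * e ^ 2 + a ≠ 0) :
    4 * a ^ 3 + 27 * b ^ 2 ≠ 0 := by
  intro h0
  by_cases ha : a = 0
  · subst ha
    have hb : b = 0 := by
      have h1 : b ^ 2 = 0 := by linear_combination h0 / 27
      exact pow_eq_zero_iff two_ne_zero |>.1 h1
    subst hb
    exact h 0 (by ring) (by ring)
  · have h2 : (2 * a) ≠ 0 := mul_ne_zero two_ne_zero ha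
    refine h (-(3 * b) / (2 * a)) ?_ ?_
    · field_simp
      linear_combination (-b) * h0
    · field_simp
      linear_combination h0

/-- curves of genus at most one are images of elliptic curves -/
theorem exists_ell {L : Type} [Field L] [Algebra ℂ L] [IsFF ℂ L] (h : canDeg ℂ L ≤ 0) :
    ∃ (E : Type) (_ : Field E) (_ : Algebra ℂ E) (_ : L →ₐ[ℂ] E) (a b : ℂ) (x y : E),
      4 * a ^ 3 + 27 * b ^ 2 ≠ 0 ∧
      y ^ 2 = x ^ 3 + algebraMap ℂ E a * x + algebraMap ℂ E b ∧
      adjoin ℂ {x, y} = (⊤ : IntermediateField ℂ E) := by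
  rcases lt_or_eq_of_le h with h0 | h0
  · obtain ⟨t, ht⟩ := Pool.Agent.TH143.GE.rational_of_neg h0
    have htt : Transcendental ℂ t := by
      intro halg
      obtain ⟨f, hf⟩ := IsFF.exists_transcendental (k := ℂ) (K := L)
      have hfm : f ∈ adjoin ℂ ({t} : Set L) := by rw [ht]; exact mem_top
      have h0 := isAlgebraic_adjoin_simple (K := ℂ) halg.isIntegral
      exact hf (IsAlgebraic.algHom (adjoin ℂ ({t} : Set L)).val (h0.isAlgebraic ⟨f, hfm⟩))
    let Ω := AlgebraicClosure L
    let τ : Ω := algebraMap L Ω t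
    obtain ⟨y, hy⟩ := IsAlgClosed.exists_pow_nat_eq (τ ^ 3 + algebraMap ℂ Ω 0 * τ + algebraMap ℂ Ω 1)
      two_pos
    have hle : ∀ l : L, algebraMap L Ω l ∈ (adjoin ℂ {τ, y} : IntermediateField ℂ Ω) := by
      intro l
      have hl : l ∈ adjoin ℂ ({t} : Set L) := by rw [ht]; exact mem_top
      have h3 : algebraMap L Ω l ∈ (adjoin ℂ ({t} : Set L)).map (IsScalarTower.toAlgHom ℂ L Ω) :=
        ⟨l, hl, rfl⟩
      rw [adjoin_map, Set.image_singleton] at h3
      exact adjoin.mono ℂ _ _ (by
        intro z hz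
        left
        exact hz) h3
    have hτ : τ ∈ (adjoin ℂ {τ, y} : IntermediateField ℂ Ω) := subset_adjoin ℂ _ (by simp)
    have hyE : y ∈ (adjoin ℂ {τ, y} : IntermediateField ℂ Ω) := subset_adjoin ℂ _ (by simp)
    refine ⟨(adjoin ℂ {τ, y} : IntermediateField ℂ Ω), inferInstance, inferInstance,
      (IsScalarTower.toAlgHom ℂ L Ω).codRestrict
        (adjoin ℂ {τ, y} : IntermediateField ℂ Ω).toSubalgebra hle, 0, 1, ⟨τ, hτ⟩, ⟨y, hyE⟩,
      by norm_num, ?_, adjoin_self_top _ rfl hτ hyE⟩
    apply (adjoin ℂ {τ, y} : IntermediateField ℂ Ω).val.injective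
    simp only [map_pow, map_add, map_mul]
    exact hy
  · obtain ⟨x, y, a, b, -, hxy, -, hgen, hroot⟩ := Pool.Agent.TH143.GE.weier (k := ℂ) (F := L) h0
    refine ⟨L, inferInstance, inferInstance, AlgHom.id ℂ L, a, b, x, y, disc_ne hroot, hxy, ?_⟩
    rw [eq_top_iff]
    intro f _
    obtain ⟨r, s, hf⟩ := hgen f
    have key : ∀ p : MvPolynomial (Fin 2) ℂ,
        MvPolynomial.aeval ![x, y] p ∈ IntermediateField.adjoin ℂ ({x, y} : Set L) := by
      intro p
      have h1 : MvPolynomial.aeval ![x, y] p ∈ Algebra.adjoin ℂ (Set.range ![x, y]) := by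
        rw [Algebra.adjoin_range_eq_range_aeval]
        exact ⟨p, rfl⟩
      refine (Algebra.adjoin_le ?_ : Algebra.adjoin ℂ (Set.range ![x, y]) ≤
        (IntermediateField.adjoin ℂ ({x, y} : Set L)).toSubalgebra) h1
      rintro _ ⟨i, rfl⟩
      apply IntermediateField.subset_adjoin
      fin_cases i <;> simp
    rw [hf]
    exact div_mem (key r) (key s)

variable {n : ℕ} {ι : Type}

/-- a nonconstant ratio of the coordinates -/
theorem exists_nonconst {K : Type} [Field K] [Algebra ℂ K] {y : Fin (n + 1) → K}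
    (hgen : coords ℂ y = ⊤) (hne : Algebra.trdeg ℂ K ≠ 0) :
    ∃ i j, y j ≠ 0 ∧ Transcendental ℂ (y i / y j) := by
  by_contra hcon
  push Not at hcon
  apply hne
  have h1 : Algebra.IsAlgebraic ℂ (coords ℂ y) := by
    refine IntermediateField.isAlgebraic_adjoin ?_
    rintro z ⟨i, j, hj, rfl⟩
    have h2 := hcon i j hj
    unfold Transcendental at h2
    rw [not_not] at h2
    exact h2.isIntegral
  rw [hgen] at h1
  have h2 : Algebra.IsAlgebraic ℂ K :=
    (IntermediateField.topEquiv (F := ℂ) (E := K)).isAlgebraic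
  exact trdeg_eq_zero_iff.2 h2

/-- **Curves on varieties with finitely many rational points.** If the projective variety over the
number field `k` given by the forms `F e` has only finitely many points over each finite extension of
`k`, all its curves over `ℂ` are of general type. -/
theorem curves_general {k : Type} [Field k] [NumberField k] (σ : k →+* ℂ)
    {F : ι → MvPolynomial (Fin (n + 1)) k} (hF : ∀ e, IsForm (F e))
    (hfin : ∀ (L : Type) [Field L] [NumberField L] [Algebra k L], (Points F L).Finite)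
    (K : Type) [Field K] [Algebra ℂ K] (y : Fin (n + 1) → K)
    (hy : SubVar (fun e => MvPolynomial.map σ (F e)) K 1 y) : GeneralType ℂ K 1 := by
  have hess : Algebra.EssFiniteType ℂ K := Pool.Agent.N155.ess_of_coords hy.gen
  have hff : IsFF ℂ K := ⟨hess, by rw [hy.dim, Nat.cast_one]⟩
  by_contra hng
  have hcan : canDeg ℂ K ≤ 0 := by
    by_contra hpos
    push Not at hpos
    apply hng
    have h1 := Pool.Agent.Q96.LS.lgt_one (L := K) ∅ (by simpa using hpos)
    simp only [Finset.notMem_empty] at h1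
    exact general_of_log h1
  obtain ⟨E, _, _, φ, a, b, X, Y, hab, hXY, htop⟩ := exists_ell hcan
  obtain ⟨i, j, hj, hij⟩ := exists_nonconst hy.gen (by rw [hy.dim]; simp)
  let _ : Algebra k ℂ := σ.toAlgebra
  have hval : ∀ G : MvPolynomial (Fin (n + 1)) ℂ,
      Pool.Agent.W602.GT.val (fun l => φ (y l)) G = φ (Pool.Agent.W602.GT.val y G) := by
    intro G
    unfold Pool.Agent.W602.GT.val
    rw [← MvPolynomial.comp_aeval_apply]
  obtain ⟨L, j1, j2, j3, hinf⟩ := infinite_of_elliptic (k := k) (Om := ℂ) F hF 1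
    ⟨0, MvPolynomial.isHomogeneous_one _ _⟩ hab hXY htop (fun l => φ (y l)) i j
    (fun h0 => hj ((map_eq_zero φ).1 h0)) (by
      intro h0
      apply hij
      have h1 : IsAlgebraic ℂ (φ (y i / y j)) := by rw [map_div₀]; exact h0
      exact (isAlgebraic_algHom_iff φ φ.injective).1 h1) (fun e => by
      rw [hval]
      exact (congrArg φ (hy.mem e)).trans (map_zero φ)) (by
      rw [hval]
      unfold Pool.Agent.W602.GT.val
      rw [map_one, map_one, map_one]
      exact one_ne_zero)
  exact hinf ((hfin L).subset fun P hP => hP.1)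

end Pool.Agent.J4H41.VI
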