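import Pool.Agent.N155.L.SDefs

/-!
Unramified extensions of function fields, and symmetric differentials on an extension `K'` of a
function field `K` which are regular on the models of `K`.
-/

set_option autoImplicit false

open FF Pool.Agent.W602.GT Pool.Agent.N155

namespace Pool.Agent.J4H41.VI

variable (K K' : Type) [Field K] [Field K'] [Algebra ℂ K] [Algebra ℂ K'] [Algebra K K']

/-- The extension `K'` of `K` is unramified at all prime divisors of the models of `K'` (`w` is the
transcendence degree): the field `K` contains uniformizers for them. If `K` is the function field of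
a smooth projective variety `X`, the normalization of `X` in a finite extension `K'` with this
property is a finite étale cover of `X` (purity of the branch locus), and the function field of
every connected finite étale cover of `X` has this property. -/
def Unramified (w : ℕ) : Prop :=
  ∀ Q : Place ℂ K', Divisorial w Q → ∃ t : K, Q.ord (algebraMap K K' t) = 1

variable {K'} in
/-- The symmetric differential `ρ` on the extension `K'` of `K` is regular as a section of the
pullback of `Sym Ω` from the smooth projective models of `K` to their covers with function field
`K'`: its value on (the extension to `K'` of) a derivation `D` of `K` is regular at each prime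
divisor of `K'` such that `D` preserves the ring of the elements of `K` which are regular at it. -/
def RegularOver (w : ℕ) (ρ : SymD K') : Prop :=
  ∀ Q : Place ℂ K', Divisorial w Q → ∀ (D : Derivation ℂ K K) (D' : Derivation ℂ K' K'),
    (∀ f, D' (algebraMap K K' f) = algebraMap K K' (D f)) →
    (∀ f : K, Q.Reg (algebraMap K K' f) → Q.Reg (algebraMap K K' (D f))) → Q.Reg (ρ.app D')

/-- Some finite cover `X'`, with function field `K'`, of the surface with function field `K` has
enough regular symmetric differentials: for every embedding of `K'` in a differential field `M` with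
derivation `δ` and constants `ℂ` (for instance, the embedding in the meromorphic functions, or in an
algebraic closure of their field, given by a Zariski dense entire curve), some symmetric
differential of positive degree on `K'`, regular over the models of `K`, is not zero on `δ`. -/
def EnoughSym : Prop :=
  ∀ (M : Type) [Field M] [Algebra ℂ M] [Algebra K' M] [IsScalarTower ℂ K' M]
    (δ : Derivation ℂ M M), (∀ m, δ m = 0 → ∃ c : ℂ, m = algebraMap ℂ M c) →
    ∃ ρ : SymD K', 0 < ρ.d ∧ RegularOver K 2 ρ ∧ ρ.app (δ.compAlgebraMap K') ≠ 0

variable (K' : Type) [Field K'] [Algebra ℂ K']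

/-- The smooth projective surface `X'` with function field `K'` has a nonconstant rational map
`(a, b)` to an elliptic curve `b² = 4 a³ - g₂ a - g₃`, or two regular 1-forms whose exterior product
is not zero, or a nonzero regular symmetric differential `h da₁ ⋯ da_d`, `d > 0`, with rational
functions `h`, `a₁`, ..., `a_d` (for example, a nonconstant rational map `a` to a curve of genus at
least two gives regular 1-forms `h da`). If the irregularity of `X'` is positive, one of these
holds: the Albanese image is a curve, or a surface. -/
def Irregular : Prop :=
  (∃ (a b : K') (g₂ g₃ : ℂ), b ^ 2 = 4 * a ^ 3 - algebraMap ℂ K' g₂ * a - algebraMap ℂ K' g₃ ∧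
    g₂ ^ 3 ≠ 27 * g₃ ^ 2 ∧ Transcendental ℂ a) ∨
  (∃ ρ₁ ρ₂ : SymD K', ρ₁.d = 1 ∧ ρ₂.d = 1 ∧ ρ₁.Regular 2 ∧ ρ₂.Regular 2 ∧
    ∃ D₁ D₂ : Derivation ℂ K' K', ρ₁.app D₁ * ρ₂.app D₂ ≠ ρ₁.app D₂ * ρ₂.app D₁) ∨
  (∃ (d : ℕ) (h : K') (a : Fin d → K'), 0 < d ∧ h ≠ 0 ∧ (∀ l, Transcendental ℂ (a l)) ∧
    (⟨d, 1, fun _ => h, fun _ => a⟩ : SymD K').Regular 2)

end Pool.Agent.J4H41.VI
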