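import Pool.Agent.R869.XDesc
import Pool.Agent.Y692.NT.Tr
import Pool.Agent.J4H41.VI.Defs
import Pool.Agent.Helper397.HK.DerExt

/-!
Traces of powers of multivalued symmetric differentials.
-/

set_option autoImplicit false
set_option linter.unusedSectionVars false
set_option linter.overlappingInstances false

open Finset Polynomial

namespace Pool.Agent.J4H41.VI

open FF Pool.Agent.W602.GT Pool.Agent.N155 Pool.Agent.W603.LV Pool.Agent.Y172

/-- If the numbers `x t` are not all zero, some power sum is not zero. -/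
theorem exists_pow_sum {T Ω : Type} [Fintype T] [Field Ω] [CharZero Ω] (x : T → Ω) (t0 : T)
    (h : x t0 ≠ 0) : ∃ s : ℕ, 0 < s ∧ ∑ t, x t ^ s ≠ 0 := by
  classical
  by_contra hcon
  push Not at hcon
  let q : Polynomial Ω := X * ∏ v ∈ (Finset.univ.image x).erase (x t0), (X - C v)
  have hq0 : q.coeff 0 = 0 := by
    rw [Polynomial.mul_coeff_zero, Polynomial.coeff_X_zero, zero_mul]
  have h1 : ∑ t, q.eval (x t) = 0 := by
    simp only [Polynomial.eval_eq_sum_range]
    rw [Finset.sum_comm]
    refine Finset.sum_eq_zero fun k _ => ?_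
    rw [← Finset.mul_sum]
    rcases Nat.eq_zero_or_pos k with rfl | hk
    · rw [hq0, zero_mul]
    · rw [hcon k hk, mul_zero]
  have h2 : ∀ t, q.eval (x t) = if x t = x t0 then q.eval (x t0) else 0 := by
    intro t
    split_ifs with ht
    · rw [ht]
    · change (X * ∏ v ∈ (Finset.univ.image x).erase (x t0), (X - C v)).eval (x t) = 0
      rw [Polynomial.eval_mul, Polynomial.eval_prod]
      have : ∏ v ∈ (Finset.univ.image x).erase (x t0), (X - C v : Polynomial Ω).eval (x t) = 0 := by
        refine Finset.prod_eq_zero (i := x t) ?_ (by simp)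
        exact Finset.mem_erase.2 ⟨ht, Finset.mem_image_of_mem _ (Finset.mem_univ _)⟩
      rw [this, mul_zero]
  rw [Finset.sum_congr rfl fun t _ => h2 t, ← Finset.sum_filter, Finset.sum_const,
    nsmul_eq_mul] at h1
  have h3 : q.eval (x t0) ≠ 0 := by
    change (X * ∏ v ∈ (Finset.univ.image x).erase (x t0), (X - C v)).eval (x t0) ≠ 0
    rw [Polynomial.eval_mul, Polynomial.eval_prod, Polynomial.eval_X]
    refine mul_ne_zero h (Finset.prod_ne_zero_iff.2 fun v hv => ?_)
    rw [Polynomial.eval_sub, Polynomial.eval_X, Polynomial.eval_C, sub_ne_zero]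
    exact (Finset.mem_erase.1 hv).1.symm
  rcases mul_eq_zero.1 h1 with h4 | h4
  · have h5 : (Finset.univ.filter fun t => x t = x t0).card = 0 := by exact_mod_cast h4
    rw [Finset.card_eq_zero] at h5
    have : t0 ∈ (Finset.univ.filter fun t => x t = x t0) := by simp
    rw [h5] at this
    exact absurd this (Finset.notMem_empty _)
  · exact h3 h4

section der

variable {L Ω : Type} [Field L] [Field Ω] [Algebra ℂ L] [Algebra ℂ Ω] [Algebra L Ω]
  [IsScalarTower ℂ L Ω] {w : ℕ}

/-- a derivation which vanishes on a transcendence basis is zero -/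
theorem der_zero {b : Fin w → L} (hb : IsTranscendenceBasis ℂ b) (δ : Derivation ℂ L Ω)
    (h : ∀ i, δ (b i) = 0) (f : L) : δ f = 0 := by
  have hLc : CharZero L := charZero_of_injective_algebraMap (algebraMap ℂ L).injective
  let F0 := IntermediateField.adjoin ℂ (Set.range b)
  have h0 : ∀ x ∈ F0, δ x = 0 := by
    intro x hx
    induction hx using IntermediateField.adjoin_induction with
    | mem x hx =>
      obtain ⟨i, rfl⟩ := hx
      exact h i
    | algebraMap c => exact δ.map_algebraMap c
    | add x y _ _ h1 h2 => rw [map_add, h1, h2, add_zero]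
    | inv x _ h1 =>
      by_cases hx0 : x = 0
      · rw [hx0, inv_zero, map_zero]
      · have h2 := δ.leibniz x x⁻¹
        rw [mul_inv_cancel₀ hx0, Derivation.map_one_eq_zero, h1, smul_zero, add_zero] at h2
        exact (smul_eq_zero.1 h2.symm).resolve_left hx0
    | mul x y _ _ h1 h2 => rw [Derivation.leibniz, h1, h2, smul_zero, smul_zero, add_zero]
  have halg : Algebra.IsAlgebraic F0 L := hb.isAlgebraic_field
  have hint : IsIntegral F0 f := (Algebra.IsAlgebraic.isAlgebraic f).isIntegral
  have hkey : ∀ p : F0[X], δ (aeval f p) = (aeval f (derivative p)) • δ f := by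
    intro p
    induction p using Polynomial.induction_on' with
    | add p q hp hq => rw [map_add, map_add, hp, hq, derivative_add, map_add, add_smul]
    | monomial m c =>
      rw [aeval_monomial, Derivation.leibniz, Derivation.leibniz_pow, derivative_monomial,
        aeval_monomial]
      have h3 : δ (algebraMap F0 L c) = 0 := h0 _ c.2
      rw [h3, smul_zero, add_zero, map_mul, map_natCast, mul_smul, mul_smul, Nat.cast_smul_eq_nsmul]
  have h4 := hkey (minpoly F0 f)
  rw [minpoly.aeval, map_zero] at h4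
  have h5 : aeval f (derivative (minpoly F0 f)) ≠ 0 :=
    (minpoly.irreducible hint).separable.aeval_derivative_ne_zero (minpoly.aeval F0 f)
  exact (smul_eq_zero.1 h4.symm).resolve_left h5

/-- derivations in coordinates -/
theorem der_expand {b : Fin w → L} (hb : IsTranscendenceBasis ℂ b) {E : Fin w → Derivation ℂ L L}
    (hE : ∀ i j, E i (b j) = if i = j then 1 else 0) (D : Derivation ℂ L Ω) (f : L) :
    D f = ∑ i, algebraMap L Ω (E i f) * D (b i) := by
  let δ : Derivation ℂ L Ω := D - ∑ i, D (b i) • (Algebra.linearMap L Ω).compDer (E i)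
  have hδ : ∀ g, δ g = D g - ∑ i, D (b i) * algebraMap L Ω (E i g) := by
    intro g
    change (D - ∑ i, D (b i) • (Algebra.linearMap L Ω).compDer (E i)) g = _
    have h2 : (∑ i, D (b i) • (Algebra.linearMap L Ω).compDer (E i) : Derivation ℂ L Ω) g =
        ∑ i, D (b i) * algebraMap L Ω (E i g) := by
      rw [← Derivation.coeFnAddMonoidHom_apply, map_sum, Finset.sum_apply]
      rfl
    rw [Derivation.sub_apply, h2]
  have h1 := der_zero hb δ (fun j => by
    rw [hδ]
    have : ∑ i, D (b i) * algebraMap L Ω (E i (b j)) = D (b j) := by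
      rw [Finset.sum_eq_single j]
      · rw [hE, if_pos rfl, map_one, mul_one]
      · intro i _ hij
        rw [hE, if_neg hij, map_zero, mul_zero]
      · intro h
        exact absurd (Finset.mem_univ j) h
    rw [this, sub_self]) f
  rw [hδ, sub_eq_zero] at h1
  rw [h1]
  exact Finset.sum_congr rfl fun i _ => mul_comm _ _

end der

section pow

variable {L : Type} [Field L] [Algebra ℂ L]

/-- the power of a symmetric differential -/
noncomputable def powD (σ : SymD L) (s : ℕ) : SymD L where
  d := s * σ.d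
  r := σ.r ^ s
  h := fun J => ∏ k, σ.h (finFunctionFinEquiv.symm J k)
  f := fun J p => σ.f (finFunctionFinEquiv.symm J (finProdFinEquiv.symm p).1)
    (finProdFinEquiv.symm p).2

/-- the value of a symmetric differential for functions `g`, `G` in place of the algebra map and the
derivation -/
noncomputable def appF (σ : SymD L) {Ω : Type} [Field Ω] (g : L →+* Ω) (G : L → Ω) : Ω :=
  ∑ j, g (σ.h j) * ∏ l, G (σ.f j l)

theorem appF_pow (σ : SymD L) (s : ℕ) {Ω : Type} [Field Ω] (g : L →+* Ω) (G : L → Ω) :
    appF (powD σ s) g G = appF σ g G ^ s := by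
  unfold appF
  rw [Fintype.sum_pow]
  change ∑ J : Fin (σ.r ^ s), g (∏ k, σ.h (finFunctionFinEquiv.symm J k)) *
    ∏ p : Fin (s * σ.d), G (σ.f (finFunctionFinEquiv.symm J (finProdFinEquiv.symm p).1)
      (finProdFinEquiv.symm p).2) = _
  rw [← Equiv.sum_comp (finFunctionFinEquiv (m := σ.r) (n := s))]
  refine Finset.sum_congr rfl fun J _ => ?_
  simp only [Equiv.symm_apply_apply]
  rw [map_prod, Finset.prod_mul_distrib]
  congr 1
  rw [← Equiv.prod_comp (finProdFinEquiv (m := s) (n := σ.d))]
  simp only [Equiv.symm_apply_apply]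
  rw [Fintype.prod_prod_type]

end pow

section tr

variable {K K' : Type} [Field K] [Field K'] [Algebra ℂ K] [Algebra ℂ K'] [Algebra K K']
  [IsScalarTower ℂ K K'] {w : ℕ}

/-- the coefficients of a symmetric differential on `K'` in coordinates of `K` -/
noncomputable def coefD (E' : Fin w → Derivation ℂ K' K') (σ : SymD K') (I : Fin σ.d → Fin w) :
    K' :=
  ∑ j, σ.h j * ∏ l, E' (I l) (σ.f j l)

/-- the trace of a symmetric differential -/
noncomputable def trD (a : Fin w → K) (E' : Fin w → Derivation ℂ K' K') (σ : SymD K') : SymD K where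
  d := σ.d
  r := w ^ σ.d
  h := fun I => Algebra.trace K K' (coefD E' σ (finFunctionFinEquiv.symm I))
  f := fun I l => a (finFunctionFinEquiv.symm I l)

/-- a symmetric differential in coordinates of `K` -/
theorem appF_coord (σ : SymD K') {Ω : Type} [Field Ω] (g : K' →+* Ω) (G : K' → Ω) (u : Fin w → Ω)
    (E' : Fin w → Derivation ℂ K' K') (hG : ∀ f, G f = ∑ i, g (E' i f) * u i) :
    appF σ g G = ∑ I : Fin σ.d → Fin w, g (coefD E' σ I) * ∏ l, u (I l) := by
  unfold appF
  have h1 : ∀ j, g (σ.h j) * ∏ l, G (σ.f j l) =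
      ∑ I : Fin σ.d → Fin w, g (σ.h j * ∏ l, E' (I l) (σ.f j l)) * ∏ l, u (I l) := by
    intro j
    simp only [hG]
    rw [Finset.prod_univ_sum, Fintype.piFinset_univ, Finset.mul_sum]
    refine Finset.sum_congr rfl fun I _ => ?_
    rw [Finset.prod_mul_distrib, map_mul, map_prod, mul_assoc]
  simp only [h1]
  rw [Finset.sum_comm]
  refine Finset.sum_congr rfl fun I _ => ?_
  unfold coefD
  rw [map_sum, Finset.sum_mul]

theorem app_trD {M : Type} [Field M] [Algebra ℂ M] [Algebra K M] (a : Fin w → K)
    (E' : Fin w → Derivation ℂ K' K') (σ : SymD K') (D : Derivation ℂ K M) :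
    (trD a E' σ).app D = ∑ I : Fin σ.d → Fin w,
      algebraMap K M (Algebra.trace K K' (coefD E' σ I)) * ∏ l, D (a (I l)) := by
  unfold SymD.app
  change ∑ I : Fin (w ^ σ.d), algebraMap K M (Algebra.trace K K'
    (coefD E' σ (finFunctionFinEquiv.symm I))) * ∏ l, D (a (finFunctionFinEquiv.symm I l)) = _
  rw [← Equiv.sum_comp (finFunctionFinEquiv (m := w) (n := σ.d))]
  simp only [Equiv.symm_apply_apply]

theorem app_eq_appF (σ : SymD K') {M : Type} [Field M] [Algebra ℂ M] [Algebra K' M]
    (D : Derivation ℂ K' M) : σ.app D = appF σ (algebraMap K' M) D := rfl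

theorem reg_pow {Q : Place ℂ K'} {f : K'} (h : Q.Reg f) (s : ℕ) : Q.Reg (f ^ s) := by
  induction s with
  | zero =>
    rw [pow_zero]
    exact Q.reg_one
  | succ s ih =>
    rw [pow_succ]
    exact Q.reg_mul ih h

variable [FiniteDimensional K K']

/-- traces of powers are regular -/
theorem regular_tr [Algebra.EssFiniteType ℂ K] [Algebra.EssFiniteType ℂ K']
    (hn : Algebra.trdeg ℂ K = w) {a : Fin w → K} (ha : IsTranscendenceBasis ℂ a)
    {E : Fin w → Derivation ℂ K K} (hE : ∀ i j, E i (a j) = if i = j then 1 else 0)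
    {E' : Fin w → Derivation ℂ K' K'}
    (hE' : ∀ i f, E' i (algebraMap K K' f) = algebraMap K K' (E i f)) {σ : SymD K'}
    (hσ : RegularOver K w σ) (s : ℕ) : (trD a E' (powD σ s)).Regular w := by
  intro P hP D hD
  obtain ⟨D', hD'⟩ := exists_lift (L := K') hn D
  have ha' : IsTranscendenceBasis ℂ (fun i => algebraMap K K' (a i)) :=
    ha.algebraMap_comp (A := K')
  have h0 : ∀ i j, E' i (algebraMap K K' (a j)) = if i = j then 1 else 0 := by
    intro i j
    rw [hE', hE]
    split_ifs
    · exact map_one _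
    · exact map_zero _
  have h1 : (trD a E' (powD σ s)).app D = Algebra.trace K K' ((σ.app D') ^ s) := by
    rw [app_trD, app_eq_appF, ← appF_pow, appF_coord (powD σ s) (algebraMap K' K') D'
      (fun i => algebraMap K K' (D (a i))) E' (fun f => by
        rw [der_expand ha' h0 D' f]
        simp only [hD']), map_sum]
    refine Finset.sum_congr rfl fun I _ => ?_
    change Algebra.trace K K' (coefD E' (powD σ s) I) * ∏ l, D (a (I l)) =
      Algebra.trace K K' (coefD E' (powD σ s) I * ∏ l, algebraMap K K' (D (a (I l))))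
    have h5 : ∏ l, algebraMap K K' (D (a (I l))) = algebraMap K K' (∏ l, D (a (I l))) :=
      (map_prod (algebraMap K K') _ _).symm
    rw [h5, mul_comm, mul_comm (coefD E' (powD σ s) I), ← Algebra.smul_def, map_smul,
      smul_eq_mul]
  rw [h1]
  have h2 : Ge P 0 (Algebra.trace K K' ((σ.app D') ^ s)) := by
    refine Pool.Agent.Y692.NT.trace_reg P _ fun Q e hQ => ?_
    have hQd : Divisorial w Q := divisorial_up hQ hP
    have h3 := reg_pow (hσ Q hQd D D' hD' (fun f hf => hQ.reg.2 (hD f (hQ.reg.1 hf)))) s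
    rcases h3 with h4 | h4
    · exact Or.inl h4
    · right
      have := hQ.1
      omega
  exact h2

/-- **Descent of the criterion.** -/
theorem transfer [Algebra.EssFiniteType ℂ K] [Algebra.EssFiniteType ℂ K']
    (hn : Algebra.trdeg ℂ K = w)
    (h : ∀ (M : Type) [Field M] [Algebra ℂ M] [Algebra K' M] [IsScalarTower ℂ K' M]
      (δ : Derivation ℂ M M), (∀ m, δ m = 0 → ∃ c : ℂ, m = algebraMap ℂ M c) →
      ∃ σ : SymD K', 0 < σ.d ∧ RegularOver K w σ ∧ σ.app (δ.compAlgebraMap K') ≠ 0)
    (M : Type) [Field M] [Algebra ℂ M] [Algebra K M] [IsScalarTower ℂ K M]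
    (δ : Derivation ℂ M M) (hδ : ∀ m, δ m = 0 → ∃ c : ℂ, m = algebraMap ℂ M c) :
    ∃ σ : SymD K, 0 < σ.d ∧ σ.Regular w ∧ σ.app (δ.compAlgebraMap K) ≠ 0 := by
  classical
  have hcK : CharZero K := charZero_of_injective_algebraMap (algebraMap ℂ K).injective
  have hcM : CharZero M := charZero_of_injective_algebraMap (algebraMap ℂ M).injective
  let Ω := AlgebraicClosure M
  obtain ⟨Δ, hΔ⟩ := Pool.Agent.Helper397.HK.exists_ext_der (k := ℂ) (F := M) (L := Ω)
    ((Algebra.linearMap M Ω).compDer δ)
  have hΔ' : ∀ m : M, Δ (algebraMap M Ω m) = algebraMap M Ω (δ m) := hΔ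
  -- the constants
  have hcon : ∀ z : Ω, Δ z = 0 → ∃ c : ℂ, z = algebraMap ℂ Ω c := by
    intro z hz
    have hint : IsIntegral M z := Algebra.IsIntegral.isIntegral z
    set p := minpoly M z with hp
    have hmon : p.Monic := minpoly.monic hint
    -- the polynomial with the coefficients `δ (p_i)`
    let q : M[X] := ∑ i ∈ Finset.range p.natDegree, C (δ (p.coeff i)) * X ^ i
    have hq : aeval z q = 0 := by
      have h1 : Δ (aeval z p) = 0 := by rw [hp, minpoly.aeval, map_zero]
      rw [aeval_eq_sum_range, Finset.sum_range_succ, hmon.coeff_natDegree, one_smul, map_add,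
        map_sum, Derivation.leibniz_pow, hz, smul_zero, nsmul_zero, add_zero] at h1
      rw [← h1]
      simp only [q, map_sum, map_mul, aeval_C, map_pow, aeval_X]
      refine Finset.sum_congr rfl fun i _ => ?_
      rw [Algebra.smul_def, Derivation.leibniz, Derivation.leibniz_pow, hz, smul_zero, nsmul_zero,
        smul_zero, zero_add, hΔ', smul_eq_mul, mul_comm]
    have hqd : q.degree < p.degree := by
      rw [degree_eq_natDegree hmon.ne_zero]
      refine (degree_sum_le _ _).trans_lt ?_
      rw [Finset.sup_lt_iff (WithBot.bot_lt_coe _)]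
      intro i hi
      exact (degree_C_mul_X_pow_le _ _).trans_lt (by exact_mod_cast Finset.mem_range.1 hi)
    have hq0 : q = 0 := by
      by_contra hne
      exact absurd (minpoly.degree_le_of_ne_zero M z hne hq) (not_le.2 hqd)
    have hcoef : ∀ i, ∃ c : ℂ, p.coeff i = algebraMap ℂ M c := by
      intro i
      rcases lt_trichotomy i p.natDegree with hi | hi | hi
      · apply hδ
        have h2 : q.coeff i = δ (p.coeff i) := by
          simp only [q, finsetSum_coeff, coeff_C_mul, coeff_X_pow]
          rw [Finset.sum_eq_single i]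
          · rw [if_pos rfl, mul_one]
          · intro j _ hj
            rw [if_neg (Ne.symm hj), mul_zero]
          · intro h
            exact absurd (Finset.mem_range.2 hi) h
        rw [← h2, hq0, coeff_zero]
      · exact ⟨1, by rw [hi, hmon.coeff_natDegree, map_one]⟩
      · exact ⟨0, by rw [coeff_eq_zero_of_natDegree_lt hi, map_zero]⟩
    choose c hc using hcoef
    have halg : IsAlgebraic ℂ z := by
      refine ⟨∑ i ∈ Finset.range (p.natDegree + 1), C (c i) * X ^ i, ?_, ?_⟩
      · intro h0
        have h2 := congrArg (fun r : ℂ[X] => r.coeff p.natDegree) h0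
        simp only [finsetSum_coeff, coeff_C_mul, coeff_X_pow, coeff_zero] at h2
        rw [Finset.sum_eq_single p.natDegree] at h2
        · rw [if_pos rfl, mul_one] at h2
          have h3 := hc p.natDegree
          rw [h2, hmon.coeff_natDegree, map_zero] at h3
          exact one_ne_zero h3
        · intro j _ hj
          rw [if_neg (Ne.symm hj), mul_zero]
        · intro h
          exact absurd (Finset.mem_range.2 (Nat.lt_succ_self _)) h
      · have h1 : aeval z p = 0 := by rw [hp, minpoly.aeval]
        rw [aeval_eq_sum_range] at h1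
        rw [← h1]
        simp only [map_sum, map_mul, aeval_C, map_pow, aeval_X]
        refine Finset.sum_congr rfl fun i _ => ?_
        rw [Algebra.smul_def, hc i, ← IsScalarTower.algebraMap_apply ℂ M Ω]
    obtain ⟨c0, hc0⟩ := minpoly.mem_range_of_degree_eq_one ℂ z
      (IsAlgClosed.degree_eq_one_of_irreducible ℂ (minpoly.irreducible halg.isIntegral))
    exact ⟨c0, hc0.symm⟩
  -- an embedding
  let τ0 : K' →ₐ[K] Ω := IsAlgClosed.lift
  obtain ⟨σ, hσd, hσr, hσ⟩ : ∃ σ : SymD K', 0 < σ.d ∧ RegularOver K w σ ∧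
      appF σ (τ0 : K' →+* Ω) (fun f => Δ (τ0 f)) ≠ 0 := by
    let iA : Algebra K' Ω := (τ0 : K' →+* Ω).toAlgebra
    have iT : IsScalarTower ℂ K' Ω := IsScalarTower.of_algebraMap_eq fun c => by
      change _ = τ0 (algebraMap ℂ K' c)
      rw [IsScalarTower.algebraMap_apply ℂ K K', τ0.commutes, ← IsScalarTower.algebraMap_apply ℂ K Ω]
    obtain ⟨σ, h1, h2, h3⟩ := h Ω Δ hcon
    exact ⟨σ, h1, h2, h3⟩
  obtain ⟨a, E, ha, hE⟩ := exists_crd hn
  choose E' hE' using fun i => exists_lift (L := K') hn (E i)
  obtain ⟨s, hs0, hs⟩ := exists_pow_sum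
    (fun τ : K' →ₐ[K] Ω => appF σ (τ : K' →+* Ω) (fun f => Δ (τ f))) τ0 hσ
  refine ⟨trD a E' (powD σ s), Nat.mul_pos hs0 hσd, regular_tr hn ha hE hE' hσr s, fun h0 => hs ?_⟩
  have ha' : IsTranscendenceBasis ℂ (fun i => algebraMap K K' (a i)) :=
    ha.algebraMap_comp (A := K')
  have hE0 : ∀ i j, E' i (algebraMap K K' (a j)) = if i = j then 1 else 0 := by
    intro i j
    rw [hE', hE]
    split_ifs
    · exact map_one _
    · exact map_zero _
  have h1 : ∀ τ : K' →ₐ[K] Ω, appF σ (τ : K' →+* Ω) (fun f => Δ (τ f)) ^ s =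
      ∑ I : Fin (powD σ s).d → Fin w, τ (coefD E' (powD σ s) I) *
        ∏ l, Δ (algebraMap K Ω (a (I l))) := by
    intro τ
    rw [← appF_pow, appF_coord (powD σ s) (τ : K' →+* Ω) (fun f => Δ (τ f))
      (fun i => Δ (algebraMap K Ω (a i))) E' (fun f => ?_)]
    · rfl
    let iA : Algebra K' Ω := (τ : K' →+* Ω).toAlgebra
    have iT : IsScalarTower ℂ K' Ω := IsScalarTower.of_algebraMap_eq fun c => by
      change _ = τ (algebraMap ℂ K' c)
      rw [IsScalarTower.algebraMap_apply ℂ K K', τ.commutes, ← IsScalarTower.algebraMap_apply ℂ K Ω]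
    have h2 := der_expand ha' hE0 (Δ.compAlgebraMap K') f
    have h3 : ∀ i, (Δ.compAlgebraMap K') (algebraMap K K' (a i)) = Δ (algebraMap K Ω (a i)) := by
      intro i
      change Δ (τ (algebraMap K K' (a i))) = _
      rw [τ.commutes]
    simp only [h3] at h2
    exact h2
  simp only [h1]
  rw [Finset.sum_comm]
  have h2 : ∀ I : Fin (powD σ s).d → Fin w, ∑ τ : K' →ₐ[K] Ω, τ (coefD E' (powD σ s) I) *
      ∏ l, Δ (algebraMap K Ω (a (I l))) = algebraMap K Ω (Algebra.trace K K'
        (coefD E' (powD σ s) I)) * ∏ l, Δ (algebraMap K Ω (a (I l))) := by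
    intro I
    rw [← Finset.sum_mul, ← trace_eq_sum_embeddings]
  simp only [h2]
  have h3 := congrArg (algebraMap M Ω) h0
  rw [app_trD, map_sum, map_zero] at h3
  rw [← h3]
  refine Finset.sum_congr rfl fun I _ => ?_
  rw [map_mul, map_prod, ← IsScalarTower.algebraMap_apply K M Ω]
  congr 1
  refine Finset.prod_congr rfl fun l _ => ?_
  rw [IsScalarTower.algebraMap_apply K M Ω, hΔ']
  rfl

end tr

end Pool.Agent.J4H41.VI
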