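import Pool.Agent.N155.L.SFin

/-!
Hyperbolicity of surfaces with symmetric differentials: the criterion in terms of differential
fields with constants `ℂ`.
-/

set_option autoImplicit false

open Filter Topology Metric Set MvPolynomial LinearAlgebra.Projectivization

namespace Pool.Agent.J4H41.VI

open FF Pool.Agent.Y190.OP Pool.Agent.W602.GT Pool.Agent.TH143.GT Pool.Agent.N155

variable {n : ℕ} {ι : Type} {F : ι → MvPolynomial (Fin (n + 1)) ℂ} {K : Type} [Field K]
  [Algebra ℂ K] {y : Fin (n + 1) → K}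

/-- Entire curves of bounded derivative are tangent to the regular symmetric differentials (compare
`Pool.Agent.N155.tangent_proj`). -/
theorem tangent_cv (hX : SmoothSurface F y)
    (hgt1 : ∀ (K1 : Type) [Field K1] [Algebra ℂ K1] (y1 : Fin (n + 1) → K1),
      SubVar F K1 1 y1 → GeneralType ℂ K1 1) (hgt2 : GeneralType ℂ K 2) (R : ∀ h : K, Frac y h)
    {σ : SymD K} (hd : 0 < σ.d) (hreg : σ.Regular 2) {φ : ℂ → Mat (n + 1)} (hol : HolP univ φ)
    (hmem : ∀ z, φ z ∈ TX y) {B : ℝ} (hB : ∀ z, ‖fderiv ℝ φ z‖ ≤ B) (hnc : ∃ z, φ z ≠ φ 0) :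
    SEq R σ 0 φ := by
  have hLB : LB R := lb_of_graph hX.sub hX.form hX.irred hX.smooth R
  obtain ⟨-, N, hN, ω, hω, hregω, D, hD0, hDi⟩ := hgt2
  have hB0 : 0 ≤ B := (norm_nonneg _).trans (hB 0)
  set ρ : ℝ := 2 / (B + 1) with hρ
  have hρ0 : 0 < ρ := by positivity
  have hnc' : ∃ z, φ (aff 0 ρ z) ≠ φ (aff 0 ρ 0) := by
    obtain ⟨z, hz⟩ := hnc
    refine ⟨z / ρ, ?_⟩
    have h1 : aff 0 ρ (z / ρ) = z := by
      unfold aff
      have : (ρ : ℂ) ≠ 0 := by exact_mod_cast hρ0.ne'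
      field_simp
      simp
    have h2 : aff 0 ρ 0 = 0 := by
      unfold aff
      simp
    rwa [h1, h2]
  have key : SEq R σ 0 (fun z => φ (aff 0 ρ z)) := by
    refine tangent_gen (S := univ) (Cn := fun _ => True)
      ⟨N, ω 0, ω 1, D, hN, hω 0, hω 1, fun v hv _ => hregω v hv 0, fun v hv _ => hregω v hv 1,
        hD0, hDi.transcendental 0⟩ hLB.lbc (fun M hM _ => hLB.lbc M hM)
      (fun φ h1 h2 _ h4 h5 => cv_of_general hX.form hX.sub hgt1 h1 h2 h4 h5)
      (fun _ _ _ _ _ _ _ _ _ _ _ _ => mem_univ _) hd (fun v hv D hD => hreg v hv D hD) ?_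
      (fun z => hmem _) (fun z => mem_univ _) (fun z => ?_) hnc'
    · have := hol.aff 0 ρ
      rwa [preimage_univ] at this
    · rw [norm_fderiv_aff hρ0.le (hol.differentiableAt (mem_univ _))]
      have h1 := hB (aff 0 ρ z)
      rw [hρ, div_mul_eq_mul_div, div_le_iff₀ (by positivity)]
      linarith
  intro z hz
  have h1 : aff 0 ρ (z / ρ) = z := by
    unfold aff
    have : (ρ : ℂ) ≠ 0 := by exact_mod_cast hρ0.ne'
    field_simp
    simp
  have h2 := key (z / ρ) (by
    change sgood R σ (φ (aff 0 ρ (z / ρ)))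
    rwa [h1])
  rw [sval_aff, h1] at h2
  have h3 : (ρ : ℂ) ^ σ.d ≠ 0 := pow_ne_zero _ (by exact_mod_cast hρ0.ne')
  exact (mul_eq_zero.1 h2).resolve_left h3

/-- If for every embedding of `K` in a differential field with constants `ℂ` some regular symmetric
differential does not vanish on the derivation, the surface is Brody hyperbolic. -/
theorem hyp_of_dif (hX : SmoothSurface F y)
    (hgt1 : ∀ (K1 : Type) [Field K1] [Algebra ℂ K1] (y1 : Fin (n + 1) → K1),
      SubVar F K1 1 y1 → GeneralType ℂ K1 1) (hgt2 : GeneralType ℂ K 2)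
    (h : ∀ (M : Type) [Field M] [Algebra ℂ M] [Algebra K M] [IsScalarTower ℂ K M]
      (δ : Derivation ℂ M M), (∀ m, δ m = 0 → ∃ c : ℂ, m = algebraMap ℂ M c) →
      ∃ σ : SymD K, 0 < σ.d ∧ σ.Regular 2 ∧ σ.app (δ.compAlgebraMap K) ≠ 0) :
    BrodyHyperbolic F := by
  refine brody_of_const hX.irred fun φ hol hmem => ?_
  by_contra hne
  let R : ∀ h : K, Frac y h := fr hX.sub.gen
  obtain ⟨H, hH1, hH2, hH3, hH4⟩ := brody isCompact_TX TX_PM hol hmem hne
  have hnc : ∃ z, H z ≠ H 0 := nc_of_fderiv (z := 0) fun h0 => by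
    rw [h0, norm_zero] at hH4
    exact zero_ne_one hH4
  have hcv : Cv y H := cv_of_general hX.form hX.sub hgt1 hH1 hH2 hH3 hnc
  set e := hcv.emb R with he
  let _ : Algebra K MK := e.toRingHom.toAlgebra
  have hal : ∀ k : K, algebraMap K MK k = e k := fun k => rfl
  have _ : IsScalarTower ℂ K MK := IsScalarTower.of_algebraMap_eq fun c => by
    rw [hal, e.commutes]
  obtain ⟨σ, hσd, hσr, hσ⟩ := h MK MDer (fun m hm => MD_eq_zero hm)
  apply hσ
  have h1 : σ.app (MDer.compAlgebraMap K) = cl (sval R σ H) (mero_sval R hcv σ) := by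
    rw [cl_sval]
    rfl
  rw [h1, cl_eq_zero]
  have h2 := tangent_cv hX hgt1 hgt2 R hσd hσr hH1 hH2 hH3 hnc
  filter_upwards [hcv.sgood R σ] with z hz
  exact h2 z hz

end Pool.Agent.J4H41.VI
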