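import Pool.Agent.J4H41.VI.Alg

/-!
Unramified extensions, and symmetric differentials of special type.
-/

set_option autoImplicit false
set_option linter.unusedSectionVars false
set_option linter.overlappingInstances false

open Finset Polynomial

namespace Pool.Agent.J4H41.VI

open FF Pool.Agent.W602.GT Pool.Agent.N155 Pool.Agent.W603.LV Pool.Agent.Y172

variable {K K' : Type} [Field K] [Field K'] [Algebra ℂ K] [Algebra ℂ K'] [Algebra K K']
  [IsScalarTower ℂ K K'] {w : ℕ}

/-- regular symmetric differentials on unramified extensions -/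
theorem regularOver_of [FiniteDimensional K K'] (hun : Unramified K K' w) {σ : SymD K'}
    (hσ : σ.Regular w) : RegularOver K w σ := by
  intro Q hQ D D' hD' hD
  obtain ⟨t, ht⟩ := hun Q hQ
  have hne : ∀ {f : K}, f ≠ 0 → algebraMap K K' f ≠ 0 := fun hf => (_root_.map_ne_zero _).2 hf
  let P : Place ℂ K :=
    { ord := fun f => Q.ord (algebraMap K K' f)
      ord_zero := by rw [map_zero, Q.ord_zero]
      ord_mul := fun hf hg => by rw [map_mul, Q.ord_mul (hne hf) (hne hg)]
      ord_add := fun hf hg hfg => by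
        have h1 := Q.ord_add (hne hf) (hne hg) (by rw [← map_add]; exact hne hfg)
        rwa [← map_add] at h1
      ord_const := fun {c} hc => by
        rw [← IsScalarTower.algebraMap_apply ℂ K K']
        exact Q.ord_const hc
      surj := ⟨t, by
        rintro rfl
        rw [map_zero, Q.ord_zero] at ht
        exact zero_ne_one ht, ht⟩ }
  have hov : Over Q P 1 := ⟨one_pos, fun f => by
    rw [Nat.cast_one, one_mul]⟩
  refine hσ Q hQ D' (Pool.Agent.R869.Wd.reg_over hov hD' fun f hf => ?_)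
  exact hov.reg.1 (hD f (hov.reg.2 hf))

section crit

variable {M : Type} [Field M] [Algebra ℂ M] [Algebra K' M] [IsScalarTower ℂ K' M]

/-- products of exact differentials do not vanish -/
theorem prod_ne (δ : Derivation ℂ M M) (hδ : ∀ m, δ m = 0 → ∃ c : ℂ, m = algebraMap ℂ M c) {d : ℕ}
    {h : K'} (hh : h ≠ 0) {a : Fin d → K'} (ha : ∀ l, Transcendental ℂ (a l)) :
    (⟨d, 1, fun _ => h, fun _ => a⟩ : SymD K').app (δ.compAlgebraMap K') ≠ 0 := by
  unfold SymD.app
  rw [Fin.sum_univ_one]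
  refine mul_ne_zero ((_root_.map_ne_zero _).2 hh) (Finset.prod_ne_zero_iff.2 fun l _ h0 => ?_)
  obtain ⟨c, hc⟩ := hδ _ h0
  apply ha l
  have h1 : a l = algebraMap ℂ K' c := (algebraMap K' M).injective (by
    rw [← IsScalarTower.algebraMap_apply ℂ K' M]
    exact hc)
  rw [h1]
  exact isAlgebraic_algebraMap _

/-- the value of a form of degree one in coordinates -/
theorem one_expand {b : Fin w → K'} (hb : IsTranscendenceBasis ℂ b)
    {E : Fin w → Derivation ℂ K' K'} (hE : ∀ i j, E i (b j) = if i = j then 1 else 0)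
    {ρ : SymD K'} (hρ : ρ.d = 1) (D : Derivation ℂ K' M) :
    ρ.app D = ∑ i, algebraMap K' M (ρ.app (E i)) * D (b i) := by
  obtain ⟨d, r, h, f⟩ := ρ
  change d = 1 at hρ
  subst hρ
  unfold SymD.app
  simp only [Fin.prod_univ_one]
  have h1 : ∀ j, algebraMap K' M (h j) * D (f j 0) =
      ∑ i, algebraMap K' M (h j * E i (f j 0)) * D (b i) := by
    intro j
    rw [der_expand hb hE D (f j 0), Finset.mul_sum]
    refine Finset.sum_congr rfl fun i _ => ?_
    rw [map_mul, mul_assoc]
  have h2 : ∀ j, (⟨1, r, h, f⟩ : SymD K').h j = h j := fun _ => rfl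
  change ∑ j, algebraMap K' M (h j) * D (f j 0) = ∑ i, algebraMap K' M (∑ j, algebraMap K' K' (h j) *
    E i (f j 0)) * D (b i)
  simp only [h1]
  rw [Finset.sum_comm]
  refine Finset.sum_congr rfl fun i _ => ?_
  rw [map_sum, Finset.sum_mul]
  rfl

/-- two forms of degree one on a surface whose exterior product is not zero have no common zero -/
theorem pair_ne (hn : Algebra.trdeg ℂ K' = (2 : ℕ)) (δ : Derivation ℂ M M)
    (hδ : ∀ m, δ m = 0 → ∃ c : ℂ, m = algebraMap ℂ M c) {ρ₁ ρ₂ : SymD K'} (h₁ : ρ₁.d = 1)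
    (h₂ : ρ₂.d = 1) {D₁ D₂ : Derivation ℂ K' K'}
    (hD : ρ₁.app D₁ * ρ₂.app D₂ ≠ ρ₁.app D₂ * ρ₂.app D₁) :
    ρ₁.app (δ.compAlgebraMap K') ≠ 0 ∨ ρ₂.app (δ.compAlgebraMap K') ≠ 0 := by
  by_contra hcon
  push Not at hcon
  obtain ⟨h3, h4⟩ := hcon
  obtain ⟨b, E, hb, hE⟩ := exists_crd hn
  rw [one_expand hb hE h₁, Fin.sum_univ_two] at h3
  rw [one_expand hb hE h₂, Fin.sum_univ_two] at h4
  have hdet : ρ₁.app (E 0) * ρ₂.app (E 1) - ρ₁.app (E 1) * ρ₂.app (E 0) ≠ 0 := by
    intro h0
    apply hD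
    rw [one_expand hb hE h₁ D₁, one_expand hb hE h₂ D₂, one_expand hb hE h₁ D₂,
      one_expand hb hE h₂ D₁]
    simp only [Fin.sum_univ_two, Algebra.algebraMap_self, RingHom.id_apply]
    linear_combination (D₁ (b 0) * D₂ (b 1) - D₁ (b 1) * D₂ (b 0)) * h0
  have hdet' : algebraMap K' M (ρ₁.app (E 0)) * algebraMap K' M (ρ₂.app (E 1)) -
      algebraMap K' M (ρ₁.app (E 1)) * algebraMap K' M (ρ₂.app (E 0)) ≠ 0 := by
    rw [← map_mul, ← map_mul, ← map_sub]
    exact (_root_.map_ne_zero _).2 hdet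
  have h5 : (δ.compAlgebraMap K') (b 0) = 0 := by
    refine (mul_eq_zero.1 ?_).resolve_left hdet'
    linear_combination algebraMap K' M (ρ₂.app (E 1)) * h3 - algebraMap K' M (ρ₁.app (E 1)) * h4
  obtain ⟨c, hc⟩ := hδ _ h5
  have h6 : b 0 = algebraMap ℂ K' c := (algebraMap K' M).injective (by
    rw [← IsScalarTower.algebraMap_apply ℂ K' M]
    exact hc)
  apply hb.1.transcendental 0
  rw [h6]
  exact isAlgebraic_algebraMap _

end crit

end Pool.Agent.J4H41.VI
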