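import Pool.Agent.J4H41.VI.Et
import Pool.Agent.J4H41.VI.Low
import Pool.Agent.J4H41.VI.Dif
import Pool.Agent.J4H41.VI.Kob
import Pool.Agent.N155.L.Ell1

/-!
Surfaces of general type with irregular étale covers: the main theorem.
-/

set_option autoImplicit false
set_option linter.unusedSectionVars false
set_option linter.overlappingInstances false

open FF LinearAlgebra.Projectivization

namespace Pool.Agent.J4H41.VI

open Pool.Agent.W602.GT Pool.Agent.N155
open Pool.Agent.Q103.AR (Points)
open Pool.Agent.N154.GG (kobayashi projDist)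

variable {n : ℕ} {ι : Type}

/-- unramified covers of irregular surfaces have enough symmetric differentials -/
theorem enough_of_irregular {K K' : Type} [Field K] [Field K'] [Algebra ℂ K] [Algebra ℂ K']
    [Algebra K K'] [IsScalarTower ℂ K K'] [FiniteDimensional K K']
    (hn : Algebra.trdeg ℂ K' = (2 : ℕ)) (hun : Unramified K K' 2) (hirr : Irregular K') :
    EnoughSym K K' := by
  intro M _ _ _ _ δ hδ
  rcases hirr with ⟨a, b, g2, g3, hab, hdisc, ha⟩ | ⟨ρ₁, ρ₂, h1, h2, h3, h4, D₁, D₂, hD⟩ |
    ⟨d, h, a, hd, hh, ha, hreg⟩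
  · have hb0 : b ≠ 0 := by
      rintro rfl
      apply ha
      refine ⟨4 * Polynomial.X ^ 3 - Polynomial.C g2 * Polynomial.X - Polynomial.C g3, ?_, ?_⟩
      · intro h0
        have h1 := congrArg (fun p => Polynomial.coeff p 3) h0
        have h4 : (4 : Polynomial ℂ) = Polynomial.C 4 := rfl
        simp only [Polynomial.coeff_sub, Polynomial.coeff_zero] at h1
        rw [h4, Polynomial.coeff_C_mul_X_pow] at h1
        simp [Polynomial.coeff_C, Polynomial.coeff_X] at h1
      · simp only [map_sub, map_mul, map_pow, Polynomial.aeval_X, Polynomial.aeval_C, map_ofNat]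
        rw [← hab]
        ring
    exact ⟨_, one_pos, regularOver_of hun (ell_regular hab hdisc 2),
      prod_ne δ hδ (inv_ne_zero hb0) (fun _ => ha)⟩
  · rcases pair_ne hn δ hδ h1 h2 hD with h5 | h5
    · exact ⟨ρ₁, by omega, regularOver_of hun h3, h5⟩
    · exact ⟨ρ₂, by omega, regularOver_of hun h4, h5⟩
  · exact ⟨_, hd, regularOver_of hun hreg, prod_ne δ hδ hh ha⟩

/-- **Surfaces of general type with enough symmetric differentials on a finite cover.** -/
theorem hyperbolic_of_finite {k : Type} [Field k] [NumberField k] (σ : k →+* ℂ)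
    {F : ι → MvPolynomial (Fin (n + 1)) k} (hF : ∀ e, IsForm (F e)) {K : Type} [Field K]
    [Algebra ℂ K] {y : Fin (n + 1) → K}
    (hX : SmoothSurface (fun e => MvPolynomial.map σ (F e)) y) (hgt : GeneralType ℂ K 2)
    (hfin : ∀ (L : Type) [Field L] [NumberField L] [Algebra k L], (Points F L).Finite)
    {K' : Type} [Field K'] [Algebra ℂ K'] [Algebra K K'] [IsScalarTower ℂ K K']
    [FiniteDimensional K K'] (hK' : EnoughSym K K' ∨ Unramified K K' 2 ∧ Irregular K') :
    BrodyHyperbolic (fun e => MvPolynomial.map σ (F e)) ∧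
    ∃ c : ℝ, 0 < c ∧ ∀ p q : ℙ ℂ (Fin (n + 1) → ℂ),
      p.rep ∈ Cone (fun e => MvPolynomial.map σ (F e)) →
      q.rep ∈ Cone (fun e => MvPolynomial.map σ (F e)) →
      ENNReal.ofReal (c * projDist p q) ≤
        kobayashi (Cone (fun e => MvPolynomial.map σ (F e))) p q := by
  have hessK : Algebra.EssFiniteType ℂ K := ess_of_coords hX.sub.gen
  have hessK' : Algebra.EssFiniteType ℂ K' := Algebra.EssFiniteType.comp ℂ K K'
  have hnK : Algebra.trdeg ℂ K = (2 : ℕ) := hX.sub.dim
  have hnK' : Algebra.trdeg ℂ K' = (2 : ℕ) := Pool.Agent.Y172.trdeg_up (K := K) hnK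
  have hen : EnoughSym K K' := by
    rcases hK' with h | ⟨h1, h2⟩
    · exact h
    · exact enough_of_irregular hnK' h1 h2
  have hB : BrodyHyperbolic (fun e => MvPolynomial.map σ (F e)) :=
    hyp_of_dif hX (fun K1 _ _ y1 hy1 => curves_general σ hF hfin K1 y1 hy1) hgt
      (fun M _ _ _ _ δ hδ => transfer hnK hen M δ hδ)
  refine ⟨hB, kob_of_brody hX.form fun f hf => ?_⟩
  exact hB f (fun z => hf.1 z) hf.2

end Pool.Agent.J4H41.VI
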